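import Pool.Agent.H6.Finger

/-! Colorful Fingerhut problem in any real inner product space (in particular in `ℓ₂`). -/

namespace Pool.Agent.Results.MP_be7f3b_co.Q1

theorem result (E : Type) [NormedAddCommGroup E] [InnerProductSpace ℝ E] (n : ℕ) (hn : 1 ≤ n)
    (r b : Fin n → E)
    (hmax : ∀ σ : Equiv.Perm (Fin n), ∑ i, ‖r i - b (σ i)‖ ≤ ∑ i, ‖r i - b i‖) :
    ∃ o : E, ∀ i, ‖r i - o‖ + ‖b i - o‖ ≤ √2 * ‖r i - b i‖ :=
  Pool.Agent.H6.Finger.main hn r b hmax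

end Pool.Agent.Results.MP_be7f3b_co.Q1
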